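import Pool.Agent.Helper94.PQ.Stmts

/-!
# Row DYADV: linear algebra
-/

set_option autoImplicit false

open NumberField Module
open scoped Classical

namespace PQ

open BKA Pool.Agent.Helper13.Swan

section

variable {k V : Type} [Field k] [CharZero k] [AddCommGroup V] [Module k V] [FiniteDimensional k V]

/-- the invariants of a finite group of isometries -/
theorem dy_nondeg (B : V →ₗ[k] V →ₗ[k] k) (hB : Symm B) {Q : Type} [Group Q] [Finite Q]
    (r : Q →* (V →ₗ[k] V)) (hr : ∀ g x y, B (r g x) (r g y) = B x y) (W : Submodule k V)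
    (hW : ∀ x, x ∈ W ↔ ∀ g, r g x = x) (y : V) (hy : y ∈ W) (h : ∀ x ∈ W, B x y = 0) : y = 0 := by
  haveI := Fintype.ofFinite Q
  apply hB.nondeg
  intro x
  have h1 : (∑ g : Q, r g x) ∈ W := by
    rw [hW]
    intro g
    rw [map_sum]
    apply Fintype.sum_equiv (Equiv.mulLeft g)
    intro g'
    rw [Equiv.coe_mulLeft, map_mul]
    rfl
  have h2 : ∀ g : Q, B (r g x) y = B x y := by
    intro g
    conv_lhs => rw [← (hW y).1 hy g]
    exact hr g x y
  have h3 := h _ h1
  rw [map_sum, LinearMap.sum_apply, Finset.sum_congr rfl (fun g _ => h2 g), Finset.sum_const,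
    Finset.card_univ, nsmul_eq_mul] at h3
  rcases mul_eq_zero.1 h3 with h4 | h4
  · exfalso
    have : Fintype.card Q ≠ 0 := Fintype.card_ne_zero
    exact this (by exact_mod_cast h4)
  · exact h4

/-- the square of an isometry has even corank of its fixed vectors in the invariants of a finite
group -/
theorem dy_even (B : V →ₗ[k] V →ₗ[k] k) (hB : Symm B) {Q : Type} [Group Q] [Finite Q]
    (r : Q →* (V →ₗ[k] V)) (hr : ∀ g x y, B (r g x) (r g y) = B x y) (W : Submodule k V)
    (hW : ∀ x, x ∈ W ↔ ∀ g, r g x = x) (S : V →ₗ[k] V) (hS : ∀ x y, B (S x) (S y) = B x y)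
    (hSW : ∀ x ∈ W, S x ∈ W) (W' : Submodule k V)
    (hW' : ∀ x, x ∈ W' ↔ x ∈ W ∧ S (S x) = x) :
    ∃ j : ℕ, finrank k W = finrank k W' + 2 * j := by
  set B' : W →ₗ[k] W →ₗ[k] k := (B.domRestrict₁₂ W W) with hB'
  have hB'a : ∀ x y : W, B' x y = B x y := fun x y => rfl
  set S' : W →ₗ[k] W := S.restrict hSW with hS'
  have hS'a : ∀ x : W, ((S' x : W) : V) = S x := fun x => rfl
  have hnd : ∀ y, (∀ x, B' x y = 0) → y = 0 := by
    intro y hy
    apply Subtype.ext
    exact dy_nondeg B hB r hr W hW y y.2 (fun x hx => hy ⟨x, hx⟩)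
  have hsy : ∀ x y, B' x y = B' y x := fun x y => hB.symm _ _
  have hi : ∀ x y, B' (S' x) (S' y) = B' x y := fun x y => hS _ _
  have hi2 : ∀ x y, B' ((S' * S') x) ((S' * S') y) = B' x y := by
    intro x y
    rw [Module.End.mul_apply, Module.End.mul_apply, hi, hi]
  have h1 := CP18.det_isometry B' hnd hsy S' hi
  have h2 := CP18.det_isometry B' hnd hsy (S' * S') hi2
  rw [map_mul, h1, ← pow_add, ← two_mul, pow_mul, neg_one_sq, one_pow] at h2
  have h3 : Even (finrank k (LinearMap.range (S' * S' - 1))) := by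
    rcases Nat.even_or_odd (finrank k (LinearMap.range (S' * S' - 1))) with h | h
    · exact h
    · exfalso
      rw [h.neg_one_pow] at h2
      have h4 : (2 : k) = 0 := by linear_combination h2
      exact two_ne_zero h4
  obtain ⟨j, hj⟩ := h3
  refine ⟨j, ?_⟩
  have h4 := LinearMap.finrank_range_add_finrank_ker (S' * S' - 1)
  have h5 : finrank k (LinearMap.ker (S' * S' - 1)) = finrank k W' := by
    have e : (LinearMap.ker (S' * S' - 1)) = W'.comap W.subtype := by
      ext x
      rw [LinearMap.mem_ker, Submodule.mem_comap, LinearMap.sub_apply, Module.End.one_apply,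
        sub_eq_zero, Module.End.mul_apply, hW']
      constructor
      · intro h
        refine ⟨x.2, ?_⟩
        have := congrArg (fun z : W => (z : V)) h
        exact this
      · rintro ⟨_, h⟩
        apply Subtype.ext
        exact h
    rw [e]
    have hle : W' ≤ W := fun x hx => ((hW' x).1 hx).1
    exact (Submodule.comapSubtypeEquivOfLe hle).finrank_eq
  omega

end

/-! ## Matrices -/

section

variable {k : Type} [Field k] {n : ℕ}

/-- the bilinear form of a symmetric matrix -/
theorem dy_symm (B : Matrix (Fin n) (Fin n) k) (h : B.transpose = B) (hd : B.det ≠ 0) :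
    Symm (Matrix.toBilin' B) := by
  constructor
  · intro x y
    rw [Matrix.toBilin'_apply', Matrix.toBilin'_apply', Matrix.dotProduct_mulVec,
      dotProduct_comm, ← Matrix.mulVec_transpose, h]
  · intro y hy
    by_contra hne
    apply hd
    apply Matrix.exists_mulVec_eq_zero_iff.1
    refine ⟨y, hne, ?_⟩
    funext i
    have := hy (Pi.single i 1)
    rw [Matrix.toBilin'_apply', single_one_dotProduct] at this
    exact this

theorem dy_isom (B T : Matrix (Fin n) (Fin n) k) (h : T.transpose * B * T = B) (x y : Fin n → k) :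
    Matrix.toBilin' B (T.mulVec x) (T.mulVec y) = Matrix.toBilin' B x y := by
  rw [Matrix.toBilin'_apply', Matrix.toBilin'_apply', Matrix.mulVec_mulVec,
    Matrix.dotProduct_mulVec, Matrix.dotProduct_mulVec, ← Matrix.vecMul_transpose T x,
    Matrix.vecMul_vecMul, ← Matrix.mul_assoc, h]

/-- traces of an isometry of order a power of two -/
theorem dy_trace (q3 : ST_Q3) (u23 : ST_U23) {n : ℕ} (k : ℕ) (B T : Matrix (Fin n) (Fin n) ℚ_[3])
    (hd : B.det ≠ 0) (hT : T ^ (2 ^ k) = 1) (h : T.transpose * B * T = B) (u : ℕ) (hu : Odd u) :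
    (T ^ u).trace = T.trace := by
  have hper : ∀ a b : ℕ, a % 2 ^ k = b % 2 ^ k → T ^ a = T ^ b := by
    intro a b hab
    have e : ∀ a : ℕ, T ^ a = T ^ (a % 2 ^ k) := by
      intro a
      conv_lhs => rw [← Nat.mod_add_div a (2 ^ k)]
      rw [pow_add, pow_mul, hT, one_pow, mul_one]
    rw [e a, e b, hab]
  have hpow : ∀ a : ℕ, (T ^ a).transpose * B * T ^ a = B := by
    intro a
    induction a with
    | zero => simp
    | succ a ih =>
      rw [pow_succ, Matrix.transpose_mul]
      calc T.transpose * (T ^ a).transpose * B * (T ^ a * T)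
          = T.transpose * ((T ^ a).transpose * B * T ^ a) * T := by
            simp only [Matrix.mul_assoc]
        _ = B := by rw [ih, h]
  have hBu : IsUnit B.det := isUnit_iff_ne_zero.2 hd
  have hinv : ∀ a b : ℕ, T ^ a * T ^ b = 1 → (T ^ b).trace = (T ^ a).trace := by
    intro a b hab
    have h1 : (T ^ a).transpose * B = B * T ^ b := by
      calc (T ^ a).transpose * B = (T ^ a).transpose * B * (T ^ a * T ^ b) := by
            rw [hab, Matrix.mul_one]
        _ = ((T ^ a).transpose * B * T ^ a) * T ^ b := by simp only [Matrix.mul_assoc]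
        _ = B * T ^ b := by rw [hpow]
    have h2 : T ^ b = B⁻¹ * ((T ^ a).transpose * B) := by
      rw [h1, ← Matrix.mul_assoc, Matrix.nonsing_inv_mul _ hBu, Matrix.one_mul]
    rw [h2, Matrix.trace_mul_comm, Matrix.mul_assoc, Matrix.mul_nonsing_inv _ hBu, Matrix.mul_one,
      Matrix.trace_transpose]
  have hpos : NeZero (2 ^ k) := ⟨by positivity⟩
  have key := u23 ℚ_[3] k (fun x => (T ^ x.val).trace) ?_ ?_ u hu 1
  · simp only [mul_one] at key
    have e1 : T ^ ((u : ZMod (2 ^ k))).val = T ^ u := by
      apply hper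
      rw [ZMod.val_natCast, Nat.mod_mod]
    have e2 : T ^ ((1 : ZMod (2 ^ k))).val = T := by
      have : T ^ ((1 : ZMod (2 ^ k))).val = T ^ 1 := by
        apply hper
        rw [← Nat.cast_one (R := ZMod (2 ^ k)), ZMod.val_natCast, Nat.mod_mod]
      rw [this, pow_one]
    rw [e1, e2] at key
    exact key
  · intro x
    have e1 : T ^ (3 * x).val = (T ^ x.val) ^ 3 := by
      rw [← pow_mul]
      apply hper
      rw [ZMod.val_mul, Nat.mod_mod]
      have h3 : ((3 : ZMod (2 ^ k))).val = 3 % 2 ^ k := by
        have := ZMod.val_natCast (2 ^ k) 3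
        exact_mod_cast this
      rw [h3, Nat.mod_mul_mod, mul_comm]
    show (T ^ (3 * x).val).trace = (T ^ x.val).trace
    rw [e1]
    apply q3 n k
    rw [← pow_mul, mul_comm, pow_mul, hT, one_pow]
  · intro x
    show (T ^ (-x).val).trace = (T ^ x.val).trace
    apply hinv
    rw [← pow_add]
    have e : T ^ (x.val + (-x).val) = T ^ 0 := by
      apply hper
      rw [← ZMod.val_add, add_neg_cancel, ZMod.val_zero, Nat.zero_mod]
    rw [e, pow_zero]

end

end PQ
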