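import Pool.Agent.Helper18.PQ.DY1

/-!
# Row DYADV: fields and local models
-/

set_option autoImplicit false

open NumberField Module
open scoped Classical

namespace PQ

open BKA Pool.Agent.Helper13.Swan

section

variable {F : Type} [Field F] [NumberField F]

theorem dy_field (δ : F) (y : AlgebraicClosure F)
    (hy : y ^ 2 = algebraMap F (AlgebraicClosure F) δ)
    (L : IntermediateField F (AlgebraicClosure F)) (h1 : FiniteDimensional F L) (h2 : Normal F L) :
    ∃ L' : IntermediateField F (AlgebraicClosure F), L ≤ L' ∧ y ∈ L' ∧ FiniteDimensional F L' ∧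
      Normal F L' ∧ ∀ σ : Gal F, (∀ x ∈ L, σ x = x) → σ y = y → ∀ x ∈ L', σ x = x := by
  have hyi : IsIntegral F y := by
    refine ⟨Polynomial.X ^ 2 - Polynomial.C δ, Polynomial.monic_X_pow_sub_C _ two_ne_zero, ?_⟩
    rw [Polynomial.eval₂_sub, Polynomial.eval₂_pow, Polynomial.eval₂_X, Polynomial.eval₂_C, hy,
      sub_self]
  set E : IntermediateField F (AlgebraicClosure F) := IntermediateField.adjoin F {y} with hE
  have hyE : y ∈ E := IntermediateField.mem_adjoin_simple_self F y
  have hEf : FiniteDimensional F E := IntermediateField.adjoin.finiteDimensional hyi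
  have hEn : Normal F E := by
    rw [IntermediateField.normal_iff_forall_map_le]
    intro σ
    rw [hE, IntermediateField.adjoin_map, IntermediateField.adjoin_le_iff, Set.image_singleton,
      Set.singleton_subset_iff]
    have h3 : (σ y) ^ 2 = y ^ 2 := by
      rw [← map_pow, hy, AlgHom.commutes]
    rcases sq_eq_sq_iff_eq_or_eq_neg.1 h3 with h | h
    · rw [h]; exact hyE
    · rw [h]; exact E.neg_mem hyE
  refine ⟨L ⊔ E, le_sup_left, (le_sup_right : E ≤ L ⊔ E) hyE, ?_, ?_, ?_⟩
  · exact IntermediateField.finiteDimensional_sup L E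
  · exact IntermediateField.normal_sup F _ L E
  · intro σ hσL hσy
    have h3 : σ ∈ (L ⊔ E).fixingSubgroup := by
      rw [IntermediateField.fixingSubgroup_sup, Subgroup.mem_inf]
      constructor
      · rw [IntermediateField.mem_fixingSubgroup_iff]
        exact hσL
      · have h4 : E ≤ IntermediateField.fixedField (Subgroup.zpowers σ) := by
          rw [hE, IntermediateField.adjoin_le_iff, Set.singleton_subset_iff]
          show y ∈ IntermediateField.fixedField (Subgroup.zpowers σ)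
          rw [IntermediateField.mem_fixedField_iff]
          intro f hf
          have h5 : Subgroup.zpowers σ ≤ MulAction.stabilizer (Gal F) y := by
            rw [Subgroup.zpowers_le]
            exact hσy
          exact h5 hf
        exact ((IntermediateField.le_iff_le _ _).1 h4) (Subgroup.mem_zpowers σ)
    exact (IntermediateField.mem_fixingSubgroup_iff _ _).1 h3

/-- the subgroup -/
theorem dy_base {Ω P : Type} [Field Ω] [Group P] [MulSemiringAction P Ω]
    {w : Valuation Ω (WithZero (Multiplicative ℤ))} {π : Ω} (hB : Base P w π) (Q : Subgroup P) :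
    Base Q w π where
  inv τ x := hB.inv τ x
  unif := hB.unif
  res x hx := by
    obtain ⟨y, hy, hy'⟩ := hB.res x hx
    exact ⟨y, fun τ => hy τ, hy'⟩

theorem dy_mem {Ω P : Type} [Field Ω] [Group P] [MulSemiringAction P Ω]
    {w : Valuation Ω (WithZero (Multiplicative ℤ))} {π : Ω} (hB : Base P w π) (Q : Subgroup P)
    (i : ℕ) (g : Q) : g ∈ Rk (dy_base hB Q) i ↔ (g : P) ∈ Rk hB i := Iff.rfl

theorem dy_card {Ω P : Type} [Field Ω] [Group P] [MulSemiringAction P Ω]
    {w : Valuation Ω (WithZero (Multiplicative ℤ))} {π : Ω} (hB : Base P w π) (Q : Subgroup P)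
    (i : ℕ) (h : Rk hB i ≤ Q) : Nat.card (Rk (dy_base hB Q) i) = Nat.card (Rk hB i) := by
  apply Nat.card_congr
  exact { toFun := fun g => ⟨((g : Q) : P), (dy_mem hB Q i g).1 g.2⟩
          invFun := fun g => ⟨⟨g, h g.2⟩, (dy_mem hB Q i _).2 g.2⟩
          left_inv := fun g => rfl
          right_inv := fun g => rfl }

theorem dy_val {v : Pl F} {𝔓 : Ideal (Zb F)} {L : IntermediateField F (AlgebraicClosure F)}
    (M : LocM v 𝔓 L) (x : F) (hx : x ≠ 0) :
    M.w (algebraMap F L x) = ex (Nat.card (Inr L 𝔓) * od v x) := by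
  rw [M.val, ← ex_pow]
  congr 1
  unfold ex od
  rw [neg_neg, WithZero.exp_log]
  rwa [Valuation.ne_zero_iff]

theorem dy_two {v : Pl F} {𝔓 : Ideal (Zb F)} (hv : Over v 𝔓)
    {L : IntermediateField F (AlgebraicClosure F)} (M : LocM v 𝔓 L)
    (h2 : (2 : 𝓞 F) ∈ v.asIdeal) : M.w ((2 : ℕ) : L) < 1 := by
  have h := (M.int (2 : 𝓞 L)).2
  have h3 : (2 : 𝓞 L) ∈ under L 𝔓 := by
    show inc L 2 ∈ 𝔓
    refine (hv.2 2 (inc L 2) ?_).1 h2
    have e1 : ((2 : 𝓞 L) : L) = 2 := map_ofNat (algebraMap (𝓞 L) L) 2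
    have e2 : ((2 : 𝓞 F) : F) = 2 := map_ofNat (algebraMap (𝓞 F) F) 2
    show (((2 : 𝓞 L) : L) : AlgebraicClosure F) = algebraMap F (AlgebraicClosure F) ((2 : 𝓞 F) : F)
    rw [e1, e2, map_ofNat]
    rfl
  have h4 := h.2 h3
  have e1 : ((2 : 𝓞 L) : L) = 2 := map_ofNat (algebraMap (𝓞 L) L) 2
  rw [e1] at h4
  rwa [Nat.cast_ofNat]

/-- split off the first term of a finite sum -/
theorem dy_sum (f : ℕ → ℤ) (N : ℕ) (hN : ∀ i, N ≤ i → f i = 0) :
    ∑ᶠ i : ℕ, f i = f 0 + ∑ᶠ i : ℕ, f (i + 1) := by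
  have h1 : ∑ᶠ i : ℕ, f i = ∑ i ∈ Finset.range (N + 1), f i := by
    apply finsum_eq_sum_of_support_subset
    intro i hi
    simp only [Finset.coe_range, Set.mem_Iio]
    by_contra hc
    exact hi (hN i (by omega))
  have h2 : ∑ᶠ i : ℕ, f (i + 1) = ∑ i ∈ Finset.range N, f (i + 1) := by
    apply finsum_eq_sum_of_support_subset
    intro i hi
    simp only [Finset.coe_range, Set.mem_Iio]
    by_contra hc
    exact hi (hN (i + 1) (by omega))
  rw [h1, h2, Finset.sum_range_succ', add_comm]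

theorem dy_cast (f : ℕ → ℕ) (N : ℕ) (hN : ∀ i, N ≤ i → f i = 0) :
    ((∑ᶠ i : ℕ, f i : ℕ) : ℤ) = ∑ᶠ i : ℕ, (f i : ℤ) := by
  have h1 : ∑ᶠ i : ℕ, f i = ∑ i ∈ Finset.range N, f i := by
    apply finsum_eq_sum_of_support_subset
    intro i hi
    simp only [Finset.coe_range, Set.mem_Iio]
    by_contra hc
    exact hi (hN i (by omega))
  have h2 : ∑ᶠ i : ℕ, (f i : ℤ) = ∑ i ∈ Finset.range N, (f i : ℤ) := by
    apply finsum_eq_sum_of_support_subset
    intro i hi
    simp only [Finset.coe_range, Set.mem_Iio]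
    by_contra hc
    exact hi (by
      show (f i : ℤ) = 0
      rw [hN i (by omega)]; rfl)
  rw [h1, h2]
  push_cast
  rfl

theorem dy_par (a c0 c1 o K j : ℤ) (f et : ℕ) (hf : Odd f) (het : Odd et)
    (h : (f : ℤ) * (et * a - et * c0 + c1) = 2 * K + f * et * o) (hc : c0 = c1 + 2 * j) :
    Even (a + o) := by
  obtain ⟨p, rfl⟩ := hf
  obtain ⟨q, rfl⟩ := het
  subst hc
  push_cast at h
  refine ⟨K + (2 * p + 1) * (2 * q + 1) * j - (p * (a - o) * (2 * q + 1) + q * (a - o))
    + p * ((2 * q + 1) * c1 - c1) + q * c1 + o, ?_⟩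
  linear_combination h

end

end PQ
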