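import Pool.Agent.Helper18.PQ.DY2

/-!
# Row DYADV: the parity of the conductor at the places over `2`
-/

set_option autoImplicit false

open NumberField Module
open scoped Classical

namespace PQ

open BKA Pool.Agent.Helper13.Swan

section

variable {F : Type} [Field F] [NumberField F]

/-- the representation as a linear action -/
noncomputable def dyR {k : Type} [Field k] {n : ℕ} {Q : Type} [Group Q]
    (r : Q →* Matrix.GeneralLinearGroup (Fin n) k) : Q →* ((Fin n → k) →ₗ[k] (Fin n → k)) where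
  toFun g := Matrix.toLin' ((r g : Matrix.GeneralLinearGroup (Fin n) k) : Matrix (Fin n) (Fin n) k)
  map_one' := by
    rw [map_one, Units.val_one, Matrix.toLin'_one]
    rfl
  map_mul' a b := by
    rw [map_mul, Units.val_mul, Matrix.toLin'_mul]
    rfl

theorem dyR_apply {k : Type} [Field k] {n : ℕ} {Q : Type} [Group Q]
    (r : Q →* Matrix.GeneralLinearGroup (Fin n) k) (g : Q) (x : Fin n → k) :
    dyR r g x = vec r g x := rfl

/-- the places over `2` do not lie over `3` -/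
theorem dy_three (v : Pl F) (h2 : (2 : 𝓞 F) ∈ v.asIdeal) : ((3 : ℕ) : 𝓞 F) ∉ v.asIdeal := by
  intro h
  apply v.isPrime.ne_top
  rw [Ideal.eq_top_iff_one]
  have h3 := v.asIdeal.sub_mem h h2
  have e : ((3 : ℕ) : 𝓞 F) - 2 = 1 := by push_cast; norm_num
  rwa [e] at h3

omit [NumberField F] in
/-- two automorphisms that induce the same automorphism -/
theorem dy_on {L : IntermediateField F (AlgebraicClosure F)} {σ τ : Gal F} {g h : L ≃ₐ[F] L}
    (hσ : On L σ g) (hτ : On L τ h) (heq : ∀ x ∈ L, σ x = τ x) : g = h := by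
  ext x
  have h1 := hσ x
  have h2 := hτ x
  rw [← h1, ← h2]
  exact heq x x.2

end

/-- the fixed vectors -/
def dyFix {k V Q : Type} [Field k] [AddCommGroup V] [Module k V] [Group Q]
    (r : Q →* (V →ₗ[k] V)) (S : Subgroup Q) : Submodule k V :=
  { carrier := {x | ∀ g ∈ S, r g x = x}
    zero_mem' := fun _ _ => map_zero _
    add_mem' := fun {x y} hx hy g hg => by
      rw [map_add, hx g hg, hy g hg]
    smul_mem' := fun a x hx g hg => by
      rw [map_smul, hx g hg] }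

theorem dyadv (hFIN : ST_FIN) (hGRP : ST_GRP) (hTOP : ST_TOP) (hDENS : ST_DENS)
    (hREP : ST_REP) (hTAME : ST_TAME) (hVRES : ST_VRES) (hDYAD : ST_DYAD) (hCYCI : ST_CYCI)
    (hQ3 : ST_Q3) (hU23 : ST_U23) : ST_DYADV := by
  intro F _ _ n m R v a h2 hcond
  have h3 := dy_three v h2
  obtain ⟨𝔓, L, hv, hLf, hLn, hker, hsum⟩ := hcond 3 h3
  obtain ⟨hI1, hI2, hWI, hW1, hW2, hW3, hOn, -⟩ := hGRP F v 𝔓 hv
  obtain ⟨M⟩ := hFIN F v 𝔓 hv L hLf hLn
  obtain ⟨hcard, r0, hr1, hr2, hr3, hr4⟩ := hREP F v 𝔓 hv L hLf hLn M ℚ_[3] n (R.ρ 3) hker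
  have hc : ∀ σ : Gal F, Congr 𝔓 1 σ → cyc F 3 σ = 1 := hCYCI F v 𝔓 hv 3 h3
  have hiso : ∀ σ : Gal F, Congr 𝔓 1 σ →
      ((R.ρ 3 σ : Matrix.GeneralLinearGroup (Fin n) ℚ_[3]) :
        Matrix (Fin n) (Fin n) ℚ_[3]).transpose * R.B 3 *
      ((R.ρ 3 σ : Matrix.GeneralLinearGroup (Fin n) ℚ_[3]) :
        Matrix (Fin n) (Fin n) ℚ_[3]) = R.B 3 := by
    intro σ hσ
    have h := R.inv 3 σ
    rw [hc σ hσ, one_zpow, Units.val_one, one_smul] at h
    exact h
  obtain ⟨y, hy⟩ : ∃ y : AlgebraicClosure F, y ^ 2 = algebraMap F (AlgebraicClosure F) R.δ :=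
    IsAlgClosed.exists_pow_nat_eq _ (by norm_num)
  have hdet : ∀ σ : Gal F, Congr 𝔓 1 σ →
      (σ y = y ∧ ((R.ρ 3 σ : Matrix.GeneralLinearGroup (Fin n) ℚ_[3]) :
        Matrix (Fin n) (Fin n) ℚ_[3]).det = 1) ∨
      (σ y = -y ∧ ((R.ρ 3 σ : Matrix.GeneralLinearGroup (Fin n) ℚ_[3]) :
        Matrix (Fin n) (Fin n) ℚ_[3]).det = -1) := by
    intro σ hσ
    have h := R.det 3 σ y hy
    rw [hc σ hσ, one_zpow, Units.val_one] at h
    exact h
  have hne1 : (1 : ℚ_[3]) ≠ -1 := by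
    intro h
    have : (2 : ℚ_[3]) = 0 := by linear_combination h
    exact two_ne_zero this
  have hfin : Finite (Inr L 𝔓) := inferInstance
  have hft : Fintype (Inr L 𝔓) := Fintype.ofFinite _
  have hfa : FaithfulSMul (Inr L 𝔓) L := by
    constructor
    intro g h hgh
    apply Subtype.ext
    exact AlgEquiv.ext fun x => hgh x
  have hft1 : Fintype (Rk M.base 1) := Fintype.ofFinite _
  have hfa1 : FaithfulSMul (Rk M.base 1) L := by
    constructor
    intro g h hgh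
    apply Subtype.ext
    exact hfa.eq_of_smul_eq_smul hgh
  obtain ⟨hpg, hidx, -⟩ := hTAME L (Inr L 𝔓) M.w M.π M.base 2 Nat.prime_two (dy_two hv M h2)
  -- the orthogonal representation of the first ramification group
  set rr := dyR r0 with hrr
  have hrho : ∀ g : Rk M.base 1, ∃ σ : Gal F, Wild 𝔓 σ ∧ On L σ ((g : Inr L 𝔓) : L ≃ₐ[F] L) ∧
      r0 g = R.ρ 3 σ := by
    intro g
    obtain ⟨σ, hσ, hon⟩ := hr2 g
    exact ⟨σ, hσ, hon, hr1 σ g hσ hon⟩
  have hisom : ∀ g x z, Matrix.toBilin' (R.B 3) (rr g x) (rr g z) = Matrix.toBilin' (R.B 3) x z := by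
    intro g x z
    obtain ⟨σ, hσ, -, hg⟩ := hrho g
    have h := dy_isom (R.B 3) _ (hiso σ (hWI σ hσ)) x z
    rw [← hg] at h
    exact h
  have hB := dy_symm (R.B 3) (R.symm 3) (R.nondeg 3)
  have htr : ∀ g (u : ℕ), Odd u → LinearMap.trace ℚ_[3] (Fin n → ℚ_[3]) (rr (g ^ u)) =
      LinearMap.trace ℚ_[3] (Fin n → ℚ_[3]) (rr g) := by
    intro g u hu
    obtain ⟨k, hk⟩ := hpg g
    obtain ⟨σ, hσ, -, hg⟩ := hrho g
    have h := dy_trace hQ3 hU23 k (R.B 3)
      ((r0 g : Matrix.GeneralLinearGroup (Fin n) ℚ_[3]) : Matrix (Fin n) (Fin n) ℚ_[3])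
      (R.nondeg 3) (by rw [← Units.val_pow_eq_pow_val, ← map_pow, hk, map_one, Units.val_one])
      (by rw [hg]; exact hiso σ (hWI σ hσ)) u hu
    show LinearMap.trace ℚ_[3] (Fin n → ℚ_[3]) (Matrix.toLin'
        ((r0 (g ^ u) : Matrix.GeneralLinearGroup (Fin n) ℚ_[3]) :
          Matrix (Fin n) (Fin n) ℚ_[3])) =
      LinearMap.trace ℚ_[3] (Fin n → ℚ_[3]) (Matrix.toLin'
        ((r0 g : Matrix.GeneralLinearGroup (Fin n) ℚ_[3]) : Matrix (Fin n) (Fin n) ℚ_[3]))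
    rw [Matrix.trace_toLin'_eq, Matrix.trace_toLin'_eq, map_pow, Units.val_pow_eq_pow_val]
    exact h
  obtain ⟨D, hD0, hDs, hDw⟩ := hDYAD L (Rk M.base 1) M.w M.π (dy_base M.base (Rk M.base 1)) hpg
    ℚ_[3] (Fin n → ℚ_[3]) (Matrix.toBilin' (R.B 3)) hB rr hisom htr
  -- the sum
  set Φ : Subgroup (Rk M.base 1) → ℤ := fun S =>
    (Nat.card S : ℤ) * ((finrank ℚ_[3] (Fin n → ℚ_[3]) : ℤ) - finrank ℚ_[3] (dyFix rr S)) with hΦ
  have hDw' : M.w D ^ 2 = ex (∑ᶠ i : ℕ, Φ (Rk (dy_base M.base (Rk M.base 1)) i)) := hDw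
  set U : ℕ → ℕ := fun i => ramCard L 𝔓 (i + 1) *
    codim (R.ρ 3) {σ | Wild 𝔓 σ ∧ Ram L 𝔓 (i + 1) σ} with hU
  have hfr : ∀ W : Submodule ℚ_[3] (Fin n → ℚ_[3]), finrank ℚ_[3] W ≤ n := by
    intro W
    have h := Submodule.finrank_le W
    rwa [finrank_fin_fun] at h
  have hΦU : ∀ i, Φ (Rk (dy_base M.base (Rk M.base 1)) (i + 1)) = (U i : ℤ) := by
    intro i
    have e1 : Nat.card (Rk (dy_base M.base (Rk M.base 1)) (i + 1)) = ramCard L 𝔓 (i + 1) := by
      rw [dy_card M.base (Rk M.base 1) (i + 1) (Rk_antitone M.base (by omega)), hcard]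
    have e2 : dyFix rr (Rk (dy_base M.base (Rk M.base 1)) (i + 1)) =
        fixd (R.ρ 3) {σ | Wild 𝔓 σ ∧ Ram L 𝔓 (i + 1) σ} := by
      ext x
      rw [hr4 i x]
      constructor
      · intro h g hg
        exact h g hg
      · intro h g hg
        exact h g hg
    show (Nat.card (Rk (dy_base M.base (Rk M.base 1)) (i + 1)) : ℤ) *
      ((finrank ℚ_[3] (Fin n → ℚ_[3]) : ℤ) -
        finrank ℚ_[3] (dyFix rr (Rk (dy_base M.base (Rk M.base 1)) (i + 1)))) = (U i : ℤ)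
    rw [e1, e2, finrank_fin_fun, hU]
    simp only [codim]
    push_cast [Nat.cast_sub (hfr (fixd (R.ρ 3) {σ | Wild 𝔓 σ ∧ Ram L 𝔓 (i + 1) σ}))]
    rfl
  obtain ⟨N, hN⟩ := M.base.exists_Rk_bot
  have hΦ0 : ∀ i, N ≤ i → Φ (Rk (dy_base M.base (Rk M.base 1)) i) = 0 := by
    intro i hi
    have e2 : dyFix rr (Rk (dy_base M.base (Rk M.base 1)) i) = ⊤ := by
      rw [eq_top_iff]
      intro x _ g hg
      have h1 : ((g : Rk M.base 1) : Inr L 𝔓) ∈ Rk M.base N := Rk_antitone M.base hi hg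
      rw [hN, Subgroup.mem_bot] at h1
      have h4 : g = 1 := Subtype.ext h1
      rw [h4, map_one]
      rfl
    simp only [hΦ]
    rw [e2, finrank_top, sub_self, mul_zero]
  have hU0 : ∀ i, N ≤ i → U i = 0 := by
    intro i hi
    have h := hΦ0 (i + 1) (by omega)
    rw [hΦU] at h
    exact_mod_cast h
  have hΦ01 : Φ (Rk (dy_base M.base (Rk M.base 1)) 0) =
      Φ (Rk (dy_base M.base (Rk M.base 1)) 1) := by
    congr 1
    apply le_antisymm
    · intro g _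
      exact g.2
    · exact Rk_antitone _ (by omega)
  -- codimensions
  set W : Submodule ℚ_[3] (Fin n → ℚ_[3]) :=
    fixd (R.ρ 3) {σ | Wild 𝔓 σ ∧ Ram L 𝔓 (0 + 1) σ} with hWdef
  set W' : Submodule ℚ_[3] (Fin n → ℚ_[3]) := fixd (R.ρ 3) {σ | Congr 𝔓 1 σ} with hW'def
  have hWm : ∀ x, x ∈ W ↔ ∀ σ : Gal F, Wild 𝔓 σ → vec (R.ρ 3) σ x = x := by
    intro x
    constructor
    · intro h σ hσ
      exact h σ ⟨hσ, hσ L hLf hLn⟩
    · intro h σ hσ
      exact h σ hσ.1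
  obtain ⟨τ, hτ, hτ2⟩ := hTOP F v 𝔓 hv
  have hτI := hτ.1
  obtain ⟨j, hj⟩ := dy_even (Matrix.toBilin' (R.B 3)) hB rr hisom W
    (by
      intro x
      rw [hWdef, hr4 0 x]
      constructor
      · intro h g
        exact h g g.2
      · intro h g _
        exact h g)
    (Matrix.toLin' ((R.ρ 3 τ : Matrix.GeneralLinearGroup (Fin n) ℚ_[3]) :
      Matrix (Fin n) (Fin n) ℚ_[3]))
    (fun x z => dy_isom (R.B 3) _ (hiso τ hτI) x z)
    (by
      intro x hx
      rw [hWm] at hx ⊢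
      intro σ hσ
      have h1 := hW3 σ τ⁻¹ hσ (hI2 τ hτI)
      have h4 := hx _ h1
      show vec (R.ρ 3) σ (vec (R.ρ 3) τ x) = vec (R.ρ 3) τ x
      conv_rhs => rw [← h4]
      unfold vec
      rw [Matrix.mulVec_mulVec, Matrix.mulVec_mulVec, ← Units.val_mul, ← Units.val_mul, ← map_mul,
        ← map_mul]
      congr 3
      group)
    W'
    (by
      intro x
      have e1 : ∀ x, (Matrix.toLin' ((R.ρ 3 τ : Matrix.GeneralLinearGroup (Fin n) ℚ_[3]) :
          Matrix (Fin n) (Fin n) ℚ_[3])) ((Matrix.toLin'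
          ((R.ρ 3 τ : Matrix.GeneralLinearGroup (Fin n) ℚ_[3]) :
          Matrix (Fin n) (Fin n) ℚ_[3])) x) = vec (R.ρ 3) (τ * τ) x := by
        intro x
        unfold vec
        rw [Matrix.toLin'_apply, Matrix.toLin'_apply, Matrix.mulVec_mulVec, map_mul, Units.val_mul]
      rw [hWm, e1]
      constructor
      · intro h
        exact ⟨fun σ hσ => h σ (hWI σ hσ), h _ (hI1 τ τ hτI hτI)⟩
      · rintro ⟨h, h'⟩ σ hσ
        exact hDENS F v 𝔓 hv (τ * τ) (hτ2 h2) 3 n (R.ρ 3) (R.cont 3) x h h' σ hσ)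
  -- the larger field
  obtain ⟨L', hLL', hyL', hL'f, hL'n, hL'fix⟩ := dy_field R.δ y hy L hLf hLn
  obtain ⟨M'⟩ := hFIN F v 𝔓 hv L' hL'f hL'n
  obtain ⟨-, r0', -, hr2', hr3', -⟩ := hREP F v 𝔓 hv L' hL'f hL'n M' ℚ_[3] n (R.ρ 3)
    (fun σ hσ h => hker σ hσ (fun x hx => h x (hLL' hx)))
  obtain ⟨e, he, hval, hcardI⟩ := hVRES F v 𝔓 hv L L' hLL' hL'f M M'
  have hfin' : Finite (Inr L' 𝔓) := inferInstance
  have hft' : Fintype (Inr L' 𝔓) := Fintype.ofFinite _
  have hfa' : FaithfulSMul (Inr L' 𝔓) L' := by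
    constructor
    intro g h hgh
    apply Subtype.ext
    exact AlgEquiv.ext fun x => hgh x
  obtain ⟨hpg', hidx', -⟩ := hTAME L' (Inr L' 𝔓) M'.w M'.π M'.base 2 Nat.prime_two
    (dy_two hv M' h2)
  have hcard1 : Nat.card (Rk M'.base 1) = Nat.card (Rk M.base 1) := by
    choose s' hs'1 hs'2 using hr2'
    choose t ht using hr3
    apply Nat.card_congr
    refine Equiv.ofBijective (fun g' => t (s' g') (hs'1 g')) ⟨?_, ?_⟩
    · intro g1 g2 hg
      have hwild : Wild 𝔓 ((s' g1)⁻¹ * s' g2) := hW1 _ _ (hW2 _ (hs'1 g1)) (hs'1 g2)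
      have hL1 : ∀ x ∈ L, ((s' g1)⁻¹ * s' g2) x = x := by
        intro x hx
        have h1 := ht (s' g1) (hs'1 g1) ⟨x, hx⟩
        have h4 := ht (s' g2) (hs'1 g2) ⟨x, hx⟩
        have h5 : s' g2 x = s' g1 x := by
          rw [show s' g2 x = _ from h4, show s' g1 x = _ from h1]
          have h6 : t (s' g1) (hs'1 g1) = t (s' g2) (hs'1 g2) := hg
          rw [h6]
        rw [AlgEquiv.mul_apply, h5, ← AlgEquiv.mul_apply, inv_mul_cancel]
        rfl
      have hρ1 := hker _ hwild hL1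
      have hy1 : ((s' g1)⁻¹ * s' g2) y = y := by
        rcases hdet _ (hWI _ hwild) with h | h
        · exact h.1
        · exfalso
          rw [hρ1, Units.val_one, Matrix.det_one] at h
          exact hne1 h.2
      have hL2 := hL'fix _ hL1 hy1
      apply Subtype.ext
      apply Subtype.ext
      apply dy_on (hs'2 g1) (hs'2 g2)
      intro x hx
      have h1 := hL2 x hx
      rw [AlgEquiv.mul_apply] at h1
      have h4 := congrArg (s' g1) h1
      rw [← AlgEquiv.mul_apply, mul_inv_cancel] at h4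
      exact h4.symm
    · intro g
      obtain ⟨σ, hσ, hon⟩ := hr2 g
      obtain ⟨g', hg'⟩ := hr3' σ hσ
      refine ⟨g', ?_⟩
      apply Subtype.ext
      apply Subtype.ext
      apply dy_on (ht (s' g') (hs'1 g')) hon
      intro x hx
      have h1 := hs'2 g' ⟨x, hLL' hx⟩
      have h4 := hg' ⟨x, hLL' hx⟩
      exact h1.trans h4.symm
  -- valuations
  have hy0 : y ≠ 0 := by
    intro h
    rw [h, zero_pow two_ne_zero] at hy
    exact R.δ_ne ((map_eq_zero _).1 hy.symm)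
  set D' : L' := IntermediateField.inclusion hLL' D with hD'
  set y' : L' := ⟨y, hyL'⟩ with hy'
  have hD'0 : D' ≠ 0 := by
    rw [hD']
    intro h
    exact hD0 ((map_eq_zero _).1 h)
  have hy'0 : y' ≠ 0 := by
    intro h
    exact hy0 (congrArg (fun z : L' => (z : AlgebraicClosure F)) h)
  have hy'2 : y' ^ 2 = algebraMap F L' R.δ := by
    apply Subtype.ext
    exact hy
  have hfx : Fx (Rk M'.base 1) (D' / y') := by
    intro τ' hτ'
    obtain ⟨σ, hσ, hon'⟩ := hr2' ⟨τ', hτ'⟩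
    obtain ⟨g, hon⟩ := hr3 σ hσ
    have hg := hr1 σ g hσ hon
    have hdg : LinearMap.det (rr g) = ((R.ρ 3 σ : Matrix.GeneralLinearGroup (Fin n) ℚ_[3]) :
        Matrix (Fin n) (Fin n) ℚ_[3]).det := by
      rw [← hg]
      exact LinearMap.det_toLin' _
    have hsD : ∀ z : L, g • D = z → τ' • D' = IntermediateField.inclusion hLL' z := by
      intro z hz
      apply Subtype.ext
      have h1 := hon' D'
      have h4 := hon D
      have h5 : (((g : Inr L 𝔓) : L ≃ₐ[F] L) D : L) = z := hz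
      rw [h5] at h4
      exact h1.symm.trans h4
    have hsy : ∀ z : L', σ y = (z : AlgebraicClosure F) → τ' • y' = z := by
      intro z hz
      apply Subtype.ext
      exact (hon' y').symm.trans hz
    have hsm : τ' • (D' / y') = (τ' • D') / (τ' • y') := by
      have := map_div₀ (MulSemiringAction.toRingHom (Inr L' 𝔓) L' τ') D' y'
      exact this
    rw [hsm]
    rcases hdet σ (hWI σ hσ) with h | h <;> rcases hDs g with h' | h'
    · rw [hsD D h'.2, hsy y' h.1]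
    · exfalso
      rw [hdg, h.2] at h'
      exact hne1 h'.1
    · exfalso
      rw [hdg, h.2] at h'
      exact hne1 h'.1.symm
    · rw [hsD (-D) h'.2, hsy (-y') h.1, map_neg, neg_div_neg_eq]
  obtain ⟨K, hK⟩ := M'.base.val_fixed (Rk M'.base 1) hfx (div_ne_zero hD'0 hy'0)
  obtain ⟨oD, hoD⟩ := exists_ex ((Valuation.ne_zero_iff M.w).2 hD0)
  obtain ⟨oy, hoy⟩ := exists_ex ((Valuation.ne_zero_iff M'.w).2 hy'0)
  have q1 : oD * 2 = ∑ᶠ i : ℕ, Φ (Rk (dy_base M.base (Rk M.base 1)) i) := by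
    rw [hoD, ex_pow, ex_inj] at hDw'
    rw [← hDw']
    push_cast
    ring
  have q2 : (2 : ℤ) * oy = (Nat.card (Inr L' 𝔓) : ℤ) * od v R.δ := by
    have h := dy_val M' R.δ R.δ_ne
    rw [← hy'2, map_pow, hoy, ex_pow, ex_inj] at h
    exact_mod_cast h
  have q3 : (e : ℤ) * oD - oy = (Nat.card (Rk M'.base 1) : ℤ) * K := by
    rw [map_div₀, hoy, hD', hval, hoD, ex_pow, ← ex_sub, ex_inj] at hK
    exact hK
  have q4 : ∑ᶠ i : ℕ, Φ (Rk (dy_base M.base (Rk M.base 1)) i) =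
      (U 0 : ℤ) + ((∑ᶠ i : ℕ, U i : ℕ) : ℤ) := by
    rw [dy_sum _ N hΦ0, hΦ01, hΦU 0, dy_cast U N hU0]
    congr 1
    exact finsum_congr hΦU
  have hR0 : Nat.card (Rk M.base 0) = Nat.card (Inr L 𝔓) := by
    have h : Rk M.base 0 = ⊤ := by
      rw [eq_top_iff]
      intro g _
      rw [mem_Rk]
      have := M.base.val_pi_sub_le g
      simpa using this
    rw [h]
    exact Nat.card_congr Subgroup.topEquiv.toEquiv
  have q5 : (Nat.card (Inr L 𝔓) : ℤ) * a = Nat.card (Inr L 𝔓) *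
      ((n : ℤ) - finrank ℚ_[3] W') + ((∑ᶠ i : ℕ, U i : ℕ) : ℤ) := by
    rw [hcard 0, hR0] at hsum
    have h := congrArg (fun z : ℕ => (z : ℤ)) hsum
    simp only [codim] at h
    push_cast [Nat.cast_sub (hfr (fixd (R.ρ 3) {σ | Congr 𝔓 1 σ}))] at h
    exact h
  have q6 : (U 0 : ℤ) = Nat.card (Rk M.base 1) * ((n : ℤ) - finrank ℚ_[3] W) := by
    simp only [hU, hcard, codim]
    push_cast [Nat.cast_sub (hfr (fixd (R.ρ 3) {σ | Wild 𝔓 σ ∧ Ram L 𝔓 (0 + 1) σ}))]
    rfl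
  have q7 : Nat.card (Rk M.base 1) * (Rk M.base 1).index = Nat.card (Inr L 𝔓) :=
    Subgroup.card_mul_index _
  have q8 : Nat.card (Rk M'.base 1) * (Rk M'.base 1).index = Nat.card (Inr L' 𝔓) :=
    Subgroup.card_mul_index _
  have hg1 : 0 < Nat.card (Rk M.base 1) := Nat.card_pos
  have hod : Odd (Rk M.base 1).index := by
    rw [← Nat.not_even_iff_odd, even_iff_two_dvd]
    exact hidx
  have hod' : Odd (Rk M'.base 1).index := by
    rw [← Nat.not_even_iff_odd, even_iff_two_dvd]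
    exact hidx'
  have q9 : e * (Rk M.base 1).index = (Rk M'.base 1).index := by
    apply Nat.eq_of_mul_eq_mul_left hg1
    rw [← hcard1, q8, hcardI, ← q7, hcard1]
    ring
  have hoe : Odd e := by
    rw [← q9] at hod'
    exact (Nat.odd_mul.1 hod').1
  refine dy_par a ((n : ℤ) - finrank ℚ_[3] W') ((n : ℤ) - finrank ℚ_[3] W) (od v R.δ) K j e
    (Rk M.base 1).index hoe hod ?_ (by rw [hj]; push_cast; ring)
  have hg1' : (Nat.card (Rk M.base 1) : ℤ) ≠ 0 := by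
    exact_mod_cast hg1.ne'
  apply mul_left_cancel₀ hg1'
  have q7' : (Nat.card (Rk M.base 1) : ℤ) * (Rk M.base 1).index = Nat.card (Inr L 𝔓) := by
    exact_mod_cast q7
  have q10 : (Nat.card (Inr L' 𝔓) : ℤ) = e * Nat.card (Inr L 𝔓) := by exact_mod_cast hcardI
  rw [hcard1] at q3
  rw [q10] at q2
  rw [q4, q6] at q1
  rw [← q7'] at q2 q5
  linear_combination (e : ℤ) * q5 - (e : ℤ) * q1 + 2 * q3 + q2

end PQ
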