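import Pool.Agent.Helper94.PQ.StmtsK
import Pool.Agent.Helper18.PQ.DYADV

/-!
# Row DYADVK: the parity of the conductor at the places over `2`
-/

set_option autoImplicit false

open NumberField Module
open scoped Classical

namespace PQ

open BKA Pool.Agent.Helper13.Swan

/-- traces of an isometry of order a power of two -/
theorem dy_traceK (u23 : ST_U23) {K : Type} [Field K] {n : ℕ} (k : ℕ)
    (q3 : ∀ T : Matrix (Fin n) (Fin n) K, T ^ (2 ^ k) = 1 → (T ^ 3).trace = T.trace)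
    (B T : Matrix (Fin n) (Fin n) K)
    (hd : B.det ≠ 0) (hT : T ^ (2 ^ k) = 1) (h : T.transpose * B * T = B) (u : ℕ) (hu : Odd u) :
    (T ^ u).trace = T.trace := by
  have hper : ∀ a b : ℕ, a % 2 ^ k = b % 2 ^ k → T ^ a = T ^ b := by
    intro a b hab
    have e : ∀ a : ℕ, T ^ a = T ^ (a % 2 ^ k) := by
      intro a
      conv_lhs => rw [← Nat.mod_add_div a (2 ^ k)]
      rw [pow_add, pow_mul, hT, one_pow, mul_one]
    rw [e a, e b, hab]
  have hpow : ∀ a : ℕ, (T ^ a).transpose * B * T ^ a = B := by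
    intro a
    induction a with
    | zero => simp
    | succ a ih =>
      rw [pow_succ, Matrix.transpose_mul]
      calc T.transpose * (T ^ a).transpose * B * (T ^ a * T)
          = T.transpose * ((T ^ a).transpose * B * T ^ a) * T := by
            simp only [Matrix.mul_assoc]
        _ = B := by rw [ih, h]
  have hBu : IsUnit B.det := isUnit_iff_ne_zero.2 hd
  have hinv : ∀ a b : ℕ, T ^ a * T ^ b = 1 → (T ^ b).trace = (T ^ a).trace := by
    intro a b hab
    have h1 : (T ^ a).transpose * B = B * T ^ b := by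
      calc (T ^ a).transpose * B = (T ^ a).transpose * B * (T ^ a * T ^ b) := by
            rw [hab, Matrix.mul_one]
        _ = ((T ^ a).transpose * B * T ^ a) * T ^ b := by simp only [Matrix.mul_assoc]
        _ = B * T ^ b := by rw [hpow]
    have h2 : T ^ b = B⁻¹ * ((T ^ a).transpose * B) := by
      rw [h1, ← Matrix.mul_assoc, Matrix.nonsing_inv_mul _ hBu, Matrix.one_mul]
    rw [h2, Matrix.trace_mul_comm, Matrix.mul_assoc, Matrix.mul_nonsing_inv _ hBu, Matrix.mul_one,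
      Matrix.trace_transpose]
  have hpos : NeZero (2 ^ k) := ⟨by positivity⟩
  have key := u23 K k (fun x => (T ^ x.val).trace) ?_ ?_ u hu 1
  · simp only [mul_one] at key
    have e1 : T ^ ((u : ZMod (2 ^ k))).val = T ^ u := by
      apply hper
      rw [ZMod.val_natCast, Nat.mod_mod]
    have e2 : T ^ ((1 : ZMod (2 ^ k))).val = T := by
      have : T ^ ((1 : ZMod (2 ^ k))).val = T ^ 1 := by
        apply hper
        rw [← Nat.cast_one (R := ZMod (2 ^ k)), ZMod.val_natCast, Nat.mod_mod]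
      rw [this, pow_one]
    rw [e1, e2] at key
    exact key
  · intro x
    have e1 : T ^ (3 * x).val = (T ^ x.val) ^ 3 := by
      rw [← pow_mul]
      apply hper
      rw [ZMod.val_mul, Nat.mod_mod]
      have h3 : ((3 : ZMod (2 ^ k))).val = 3 % 2 ^ k := by
        have := ZMod.val_natCast (2 ^ k) 3
        exact_mod_cast this
      rw [h3, Nat.mod_mul_mod, mul_comm]
    show (T ^ (3 * x).val).trace = (T ^ x.val).trace
    rw [e1]
    apply q3
    rw [← pow_mul, mul_comm, pow_mul, hT, one_pow]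
  · intro x
    show (T ^ (-x).val).trace = (T ^ x.val).trace
    apply hinv
    rw [← pow_add]
    have e : T ^ (x.val + (-x).val) = T ^ 0 := by
      apply hper
      rw [← ZMod.val_add, add_neg_cancel, ZMod.val_zero, Nat.zero_mod]
    rw [e, pow_zero]

theorem dyadvK (hFIN : ST_FIN) (hGRP : ST_GRP) (hTOP : ST_TOP) (hDENSK : ST_DENSK)
    (hREP : ST_REP) (hTAME : ST_TAME) (hVRES : ST_VRES) (hDYAD : ST_DYAD) (hCYCI : ST_CYCI)
    (hQ3K : ST_Q3K) (hU23 : ST_U23) : ST_DYADVK := by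
  intro F _ _ n m δ hδ v a h2 K _ _ _ _ _ _ hKodd R hcond
  have h3 := dy_three v h2
  have hchar : CharZero K := charZero_of_injective_algebraMap (algebraMap ℚ_[3] K).injective
  obtain ⟨𝔓, L, hv, hLf, hLn, hker, hsum⟩ := hcond
  obtain ⟨hI1, hI2, hWI, hW1, hW2, hW3, hOn, -⟩ := hGRP F v 𝔓 hv
  obtain ⟨M⟩ := hFIN F v 𝔓 hv L hLf hLn
  obtain ⟨hcard, r0, hr1, hr2, hr3, hr4⟩ := hREP F v 𝔓 hv L hLf hLn M K n (R.ρ) hker
  have hc : ∀ σ : Gal F, Congr 𝔓 1 σ → cyc F 3 σ = 1 := hCYCI F v 𝔓 hv 3 h3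
  have hiso : ∀ σ : Gal F, Congr 𝔓 1 σ →
      ((R.ρ σ : Matrix.GeneralLinearGroup (Fin n) K) :
        Matrix (Fin n) (Fin n) K).transpose * R.B *
      ((R.ρ σ : Matrix.GeneralLinearGroup (Fin n) K) :
        Matrix (Fin n) (Fin n) K) = R.B := by
    intro σ hσ
    have h := R.inv σ
    rw [hc σ hσ, one_zpow, Units.val_one, map_one, one_smul] at h
    exact h
  obtain ⟨y, hy⟩ : ∃ y : AlgebraicClosure F, y ^ 2 = algebraMap F (AlgebraicClosure F) δ :=
    IsAlgClosed.exists_pow_nat_eq _ (by norm_num)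
  have hdet : ∀ σ : Gal F, Congr 𝔓 1 σ →
      (σ y = y ∧ ((R.ρ σ : Matrix.GeneralLinearGroup (Fin n) K) :
        Matrix (Fin n) (Fin n) K).det = 1) ∨
      (σ y = -y ∧ ((R.ρ σ : Matrix.GeneralLinearGroup (Fin n) K) :
        Matrix (Fin n) (Fin n) K).det = -1) := by
    intro σ hσ
    have h := R.det σ y hy
    rw [hc σ hσ, one_zpow, Units.val_one, map_one] at h
    exact h
  have hne1 : (1 : K) ≠ -1 := by
    intro h
    have : (2 : K) = 0 := by linear_combination h
    exact two_ne_zero this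
  have hfin : Finite (Inr L 𝔓) := inferInstance
  have hft : Fintype (Inr L 𝔓) := Fintype.ofFinite _
  have hfa : FaithfulSMul (Inr L 𝔓) L := by
    constructor
    intro g h hgh
    apply Subtype.ext
    exact AlgEquiv.ext fun x => hgh x
  have hft1 : Fintype (Rk M.base 1) := Fintype.ofFinite _
  have hfa1 : FaithfulSMul (Rk M.base 1) L := by
    constructor
    intro g h hgh
    apply Subtype.ext
    exact hfa.eq_of_smul_eq_smul hgh
  obtain ⟨hpg, hidx, -⟩ := hTAME L (Inr L 𝔓) M.w M.π M.base 2 Nat.prime_two (dy_two hv M h2)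
  -- the orthogonal representation of the first ramification group
  set rr := dyR r0 with hrr
  have hrho : ∀ g : Rk M.base 1, ∃ σ : Gal F, Wild 𝔓 σ ∧ On L σ ((g : Inr L 𝔓) : L ≃ₐ[F] L) ∧
      r0 g = R.ρ σ := by
    intro g
    obtain ⟨σ, hσ, hon⟩ := hr2 g
    exact ⟨σ, hσ, hon, hr1 σ g hσ hon⟩
  have hisom : ∀ g x z, Matrix.toBilin' (R.B) (rr g x) (rr g z) = Matrix.toBilin' (R.B) x z := by
    intro g x z
    obtain ⟨σ, hσ, -, hg⟩ := hrho g
    have h := dy_isom (R.B) _ (hiso σ (hWI σ hσ)) x z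
    rw [← hg] at h
    exact h
  have hB := dy_symm (R.B) (R.symm) (R.nondeg)
  have htr : ∀ g (u : ℕ), Odd u → LinearMap.trace K (Fin n → K) (rr (g ^ u)) =
      LinearMap.trace K (Fin n → K) (rr g) := by
    intro g u hu
    obtain ⟨k, hk⟩ := hpg g
    obtain ⟨σ, hσ, -, hg⟩ := hrho g
    have h := dy_traceK hU23 k (hQ3K K hKodd n k) R.B
      ((r0 g : Matrix.GeneralLinearGroup (Fin n) K) : Matrix (Fin n) (Fin n) K)
      (R.nondeg) (by rw [← Units.val_pow_eq_pow_val, ← map_pow, hk, map_one, Units.val_one])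
      (by rw [hg]; exact hiso σ (hWI σ hσ)) u hu
    show LinearMap.trace K (Fin n → K) (Matrix.toLin'
        ((r0 (g ^ u) : Matrix.GeneralLinearGroup (Fin n) K) :
          Matrix (Fin n) (Fin n) K)) =
      LinearMap.trace K (Fin n → K) (Matrix.toLin'
        ((r0 g : Matrix.GeneralLinearGroup (Fin n) K) : Matrix (Fin n) (Fin n) K))
    rw [Matrix.trace_toLin'_eq, Matrix.trace_toLin'_eq, map_pow, Units.val_pow_eq_pow_val]
    exact h
  obtain ⟨D, hD0, hDs, hDw⟩ := hDYAD L (Rk M.base 1) M.w M.π (dy_base M.base (Rk M.base 1)) hpg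
    K (Fin n → K) (Matrix.toBilin' (R.B)) hB rr hisom htr
  -- the sum
  set Φ : Subgroup (Rk M.base 1) → ℤ := fun S =>
    (Nat.card S : ℤ) * ((finrank K (Fin n → K) : ℤ) - finrank K (dyFix rr S)) with hΦ
  have hDw' : M.w D ^ 2 = ex (∑ᶠ i : ℕ, Φ (Rk (dy_base M.base (Rk M.base 1)) i)) := hDw
  set U : ℕ → ℕ := fun i => ramCard L 𝔓 (i + 1) *
    codim (R.ρ) {σ | Wild 𝔓 σ ∧ Ram L 𝔓 (i + 1) σ} with hU
  have hfr : ∀ W : Submodule K (Fin n → K), finrank K W ≤ n := by
    intro W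
    have h := Submodule.finrank_le W
    rwa [finrank_fin_fun] at h
  have hΦU : ∀ i, Φ (Rk (dy_base M.base (Rk M.base 1)) (i + 1)) = (U i : ℤ) := by
    intro i
    have e1 : Nat.card (Rk (dy_base M.base (Rk M.base 1)) (i + 1)) = ramCard L 𝔓 (i + 1) := by
      rw [dy_card M.base (Rk M.base 1) (i + 1) (Rk_antitone M.base (by omega)), hcard]
    have e2 : dyFix rr (Rk (dy_base M.base (Rk M.base 1)) (i + 1)) =
        fixd (R.ρ) {σ | Wild 𝔓 σ ∧ Ram L 𝔓 (i + 1) σ} := by
      ext x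
      rw [hr4 i x]
      constructor
      · intro h g hg
        exact h g hg
      · intro h g hg
        exact h g hg
    show (Nat.card (Rk (dy_base M.base (Rk M.base 1)) (i + 1)) : ℤ) *
      ((finrank K (Fin n → K) : ℤ) -
        finrank K (dyFix rr (Rk (dy_base M.base (Rk M.base 1)) (i + 1)))) = (U i : ℤ)
    rw [e1, e2, finrank_fin_fun, hU]
    simp only [codim]
    push_cast [Nat.cast_sub (hfr (fixd (R.ρ) {σ | Wild 𝔓 σ ∧ Ram L 𝔓 (i + 1) σ}))]
    rfl
  obtain ⟨N, hN⟩ := M.base.exists_Rk_bot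
  have hΦ0 : ∀ i, N ≤ i → Φ (Rk (dy_base M.base (Rk M.base 1)) i) = 0 := by
    intro i hi
    have e2 : dyFix rr (Rk (dy_base M.base (Rk M.base 1)) i) = ⊤ := by
      rw [eq_top_iff]
      intro x _ g hg
      have h1 : ((g : Rk M.base 1) : Inr L 𝔓) ∈ Rk M.base N := Rk_antitone M.base hi hg
      rw [hN, Subgroup.mem_bot] at h1
      have h4 : g = 1 := Subtype.ext h1
      rw [h4, map_one]
      rfl
    simp only [hΦ]
    rw [e2, finrank_top, sub_self, mul_zero]
  have hU0 : ∀ i, N ≤ i → U i = 0 := by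
    intro i hi
    have h := hΦ0 (i + 1) (by omega)
    rw [hΦU] at h
    exact_mod_cast h
  have hΦ01 : Φ (Rk (dy_base M.base (Rk M.base 1)) 0) =
      Φ (Rk (dy_base M.base (Rk M.base 1)) 1) := by
    congr 1
    apply le_antisymm
    · intro g _
      exact g.2
    · exact Rk_antitone _ (by omega)
  -- codimensions
  set W : Submodule K (Fin n → K) :=
    fixd (R.ρ) {σ | Wild 𝔓 σ ∧ Ram L 𝔓 (0 + 1) σ} with hWdef
  set W' : Submodule K (Fin n → K) := fixd (R.ρ) {σ | Congr 𝔓 1 σ} with hW'def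
  have hWm : ∀ x, x ∈ W ↔ ∀ σ : Gal F, Wild 𝔓 σ → vec (R.ρ) σ x = x := by
    intro x
    constructor
    · intro h σ hσ
      exact h σ ⟨hσ, hσ L hLf hLn⟩
    · intro h σ hσ
      exact h σ hσ.1
  obtain ⟨τ, hτ, hτ2⟩ := hTOP F v 𝔓 hv
  have hτI := hτ.1
  obtain ⟨j, hj⟩ := dy_even (Matrix.toBilin' (R.B)) hB rr hisom W
    (by
      intro x
      rw [hWdef, hr4 0 x]
      constructor
      · intro h g
        exact h g g.2
      · intro h g _
        exact h g)
    (Matrix.toLin' ((R.ρ τ : Matrix.GeneralLinearGroup (Fin n) K) :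
      Matrix (Fin n) (Fin n) K))
    (fun x z => dy_isom (R.B) _ (hiso τ hτI) x z)
    (by
      intro x hx
      rw [hWm] at hx ⊢
      intro σ hσ
      have h1 := hW3 σ τ⁻¹ hσ (hI2 τ hτI)
      have h4 := hx _ h1
      show vec (R.ρ) σ (vec (R.ρ) τ x) = vec (R.ρ) τ x
      conv_rhs => rw [← h4]
      unfold vec
      rw [Matrix.mulVec_mulVec, Matrix.mulVec_mulVec, ← Units.val_mul, ← Units.val_mul, ← map_mul,
        ← map_mul]
      congr 3
      group)
    W'
    (by
      intro x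
      have e1 : ∀ x, (Matrix.toLin' ((R.ρ τ : Matrix.GeneralLinearGroup (Fin n) K) :
          Matrix (Fin n) (Fin n) K)) ((Matrix.toLin'
          ((R.ρ τ : Matrix.GeneralLinearGroup (Fin n) K) :
          Matrix (Fin n) (Fin n) K)) x) = vec (R.ρ) (τ * τ) x := by
        intro x
        unfold vec
        rw [Matrix.toLin'_apply, Matrix.toLin'_apply, Matrix.mulVec_mulVec, map_mul, Units.val_mul]
      rw [hWm, e1]
      constructor
      · intro h
        exact ⟨fun σ hσ => h σ (hWI σ hσ), h _ (hI1 τ τ hτI hτI)⟩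
      · rintro ⟨h, h'⟩ σ hσ
        exact hDENSK F v 𝔓 hv (τ * τ) (hτ2 h2) K n R.ρ (R.cont) x h h' σ hσ)
  -- the larger field
  obtain ⟨L', hLL', hyL', hL'f, hL'n, hL'fix⟩ := dy_field δ y hy L hLf hLn
  obtain ⟨M'⟩ := hFIN F v 𝔓 hv L' hL'f hL'n
  obtain ⟨-, r0', -, hr2', hr3', -⟩ := hREP F v 𝔓 hv L' hL'f hL'n M' K n (R.ρ)
    (fun σ hσ h => hker σ hσ (fun x hx => h x (hLL' hx)))
  obtain ⟨e, he, hval, hcardI⟩ := hVRES F v 𝔓 hv L L' hLL' hL'f M M'
  have hfin' : Finite (Inr L' 𝔓) := inferInstance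
  have hft' : Fintype (Inr L' 𝔓) := Fintype.ofFinite _
  have hfa' : FaithfulSMul (Inr L' 𝔓) L' := by
    constructor
    intro g h hgh
    apply Subtype.ext
    exact AlgEquiv.ext fun x => hgh x
  obtain ⟨hpg', hidx', -⟩ := hTAME L' (Inr L' 𝔓) M'.w M'.π M'.base 2 Nat.prime_two
    (dy_two hv M' h2)
  have hcard1 : Nat.card (Rk M'.base 1) = Nat.card (Rk M.base 1) := by
    choose s' hs'1 hs'2 using hr2'
    choose t ht using hr3
    apply Nat.card_congr
    refine Equiv.ofBijective (fun g' => t (s' g') (hs'1 g')) ⟨?_, ?_⟩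
    · intro g1 g2 hg
      have hwild : Wild 𝔓 ((s' g1)⁻¹ * s' g2) := hW1 _ _ (hW2 _ (hs'1 g1)) (hs'1 g2)
      have hL1 : ∀ x ∈ L, ((s' g1)⁻¹ * s' g2) x = x := by
        intro x hx
        have h1 := ht (s' g1) (hs'1 g1) ⟨x, hx⟩
        have h4 := ht (s' g2) (hs'1 g2) ⟨x, hx⟩
        have h5 : s' g2 x = s' g1 x := by
          rw [show s' g2 x = _ from h4, show s' g1 x = _ from h1]
          have h6 : t (s' g1) (hs'1 g1) = t (s' g2) (hs'1 g2) := hg
          rw [h6]
        rw [AlgEquiv.mul_apply, h5, ← AlgEquiv.mul_apply, inv_mul_cancel]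
        rfl
      have hρ1 := hker _ hwild hL1
      have hy1 : ((s' g1)⁻¹ * s' g2) y = y := by
        rcases hdet _ (hWI _ hwild) with h | h
        · exact h.1
        · exfalso
          rw [hρ1, Units.val_one, Matrix.det_one] at h
          exact hne1 h.2
      have hL2 := hL'fix _ hL1 hy1
      apply Subtype.ext
      apply Subtype.ext
      apply dy_on (hs'2 g1) (hs'2 g2)
      intro x hx
      have h1 := hL2 x hx
      rw [AlgEquiv.mul_apply] at h1
      have h4 := congrArg (s' g1) h1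
      rw [← AlgEquiv.mul_apply, mul_inv_cancel] at h4
      exact h4.symm
    · intro g
      obtain ⟨σ, hσ, hon⟩ := hr2 g
      obtain ⟨g', hg'⟩ := hr3' σ hσ
      refine ⟨g', ?_⟩
      apply Subtype.ext
      apply Subtype.ext
      apply dy_on (ht (s' g') (hs'1 g')) hon
      intro x hx
      have h1 := hs'2 g' ⟨x, hLL' hx⟩
      have h4 := hg' ⟨x, hLL' hx⟩
      exact h1.trans h4.symm
  -- valuations
  have hy0 : y ≠ 0 := by
    intro h
    rw [h, zero_pow two_ne_zero] at hy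
    exact hδ ((map_eq_zero _).1 hy.symm)
  set D' : L' := IntermediateField.inclusion hLL' D with hD'
  set y' : L' := ⟨y, hyL'⟩ with hy'
  have hD'0 : D' ≠ 0 := by
    rw [hD']
    intro h
    exact hD0 ((map_eq_zero _).1 h)
  have hy'0 : y' ≠ 0 := by
    intro h
    exact hy0 (congrArg (fun z : L' => (z : AlgebraicClosure F)) h)
  have hy'2 : y' ^ 2 = algebraMap F L' δ := by
    apply Subtype.ext
    exact hy
  have hfx : Fx (Rk M'.base 1) (D' / y') := by
    intro τ' hτ'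
    obtain ⟨σ, hσ, hon'⟩ := hr2' ⟨τ', hτ'⟩
    obtain ⟨g, hon⟩ := hr3 σ hσ
    have hg := hr1 σ g hσ hon
    have hdg : LinearMap.det (rr g) = ((R.ρ σ : Matrix.GeneralLinearGroup (Fin n) K) :
        Matrix (Fin n) (Fin n) K).det := by
      rw [← hg]
      exact LinearMap.det_toLin' _
    have hsD : ∀ z : L, g • D = z → τ' • D' = IntermediateField.inclusion hLL' z := by
      intro z hz
      apply Subtype.ext
      have h1 := hon' D'
      have h4 := hon D
      have h5 : (((g : Inr L 𝔓) : L ≃ₐ[F] L) D : L) = z := hz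
      rw [h5] at h4
      exact h1.symm.trans h4
    have hsy : ∀ z : L', σ y = (z : AlgebraicClosure F) → τ' • y' = z := by
      intro z hz
      apply Subtype.ext
      exact (hon' y').symm.trans hz
    have hsm : τ' • (D' / y') = (τ' • D') / (τ' • y') := by
      have := map_div₀ (MulSemiringAction.toRingHom (Inr L' 𝔓) L' τ') D' y'
      exact this
    rw [hsm]
    rcases hdet σ (hWI σ hσ) with h | h <;> rcases hDs g with h' | h'
    · rw [hsD D h'.2, hsy y' h.1]
    · exfalso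
      rw [hdg, h.2] at h'
      exact hne1 h'.1
    · exfalso
      rw [hdg, h.2] at h'
      exact hne1 h'.1.symm
    · rw [hsD (-D) h'.2, hsy (-y') h.1, map_neg, neg_div_neg_eq]
  obtain ⟨KK, hK⟩ := M'.base.val_fixed (Rk M'.base 1) hfx (div_ne_zero hD'0 hy'0)
  obtain ⟨oD, hoD⟩ := exists_ex ((Valuation.ne_zero_iff M.w).2 hD0)
  obtain ⟨oy, hoy⟩ := exists_ex ((Valuation.ne_zero_iff M'.w).2 hy'0)
  have q1 : oD * 2 = ∑ᶠ i : ℕ, Φ (Rk (dy_base M.base (Rk M.base 1)) i) := by
    rw [hoD, ex_pow, ex_inj] at hDw'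
    rw [← hDw']
    push_cast
    ring
  have q2 : (2 : ℤ) * oy = (Nat.card (Inr L' 𝔓) : ℤ) * od v δ := by
    have h := dy_val M' δ hδ
    rw [← hy'2, map_pow, hoy, ex_pow, ex_inj] at h
    exact_mod_cast h
  have q3 : (e : ℤ) * oD - oy = (Nat.card (Rk M'.base 1) : ℤ) * KK := by
    rw [map_div₀, hoy, hD', hval, hoD, ex_pow, ← ex_sub, ex_inj] at hK
    exact hK
  have q4 : ∑ᶠ i : ℕ, Φ (Rk (dy_base M.base (Rk M.base 1)) i) =
      (U 0 : ℤ) + ((∑ᶠ i : ℕ, U i : ℕ) : ℤ) := by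
    rw [dy_sum _ N hΦ0, hΦ01, hΦU 0, dy_cast U N hU0]
    congr 1
    exact finsum_congr hΦU
  have hR0 : Nat.card (Rk M.base 0) = Nat.card (Inr L 𝔓) := by
    have h : Rk M.base 0 = ⊤ := by
      rw [eq_top_iff]
      intro g _
      rw [mem_Rk]
      have := M.base.val_pi_sub_le g
      simpa using this
    rw [h]
    exact Nat.card_congr Subgroup.topEquiv.toEquiv
  have q5 : (Nat.card (Inr L 𝔓) : ℤ) * a = Nat.card (Inr L 𝔓) *
      ((n : ℤ) - finrank K W') + ((∑ᶠ i : ℕ, U i : ℕ) : ℤ) := by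
    rw [hcard 0, hR0] at hsum
    have h := congrArg (fun z : ℕ => (z : ℤ)) hsum
    simp only [codim] at h
    push_cast [Nat.cast_sub (hfr (fixd (R.ρ) {σ | Congr 𝔓 1 σ}))] at h
    exact h
  have q6 : (U 0 : ℤ) = Nat.card (Rk M.base 1) * ((n : ℤ) - finrank K W) := by
    simp only [hU, hcard, codim]
    push_cast [Nat.cast_sub (hfr (fixd (R.ρ) {σ | Wild 𝔓 σ ∧ Ram L 𝔓 (0 + 1) σ}))]
    rfl
  have q7 : Nat.card (Rk M.base 1) * (Rk M.base 1).index = Nat.card (Inr L 𝔓) :=
    Subgroup.card_mul_index _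
  have q8 : Nat.card (Rk M'.base 1) * (Rk M'.base 1).index = Nat.card (Inr L' 𝔓) :=
    Subgroup.card_mul_index _
  have hg1 : 0 < Nat.card (Rk M.base 1) := Nat.card_pos
  have hod : Odd (Rk M.base 1).index := by
    rw [← Nat.not_even_iff_odd, even_iff_two_dvd]
    exact hidx
  have hod' : Odd (Rk M'.base 1).index := by
    rw [← Nat.not_even_iff_odd, even_iff_two_dvd]
    exact hidx'
  have q9 : e * (Rk M.base 1).index = (Rk M'.base 1).index := by
    apply Nat.eq_of_mul_eq_mul_left hg1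
    rw [← hcard1, q8, hcardI, ← q7, hcard1]
    ring
  have hoe : Odd e := by
    rw [← q9] at hod'
    exact (Nat.odd_mul.1 hod').1
  refine dy_par a ((n : ℤ) - finrank K W') ((n : ℤ) - finrank K W) (od v δ) KK j e
    (Rk M.base 1).index hoe hod ?_ (by rw [hj]; push_cast; ring)
  have hg1' : (Nat.card (Rk M.base 1) : ℤ) ≠ 0 := by
    exact_mod_cast hg1.ne'
  apply mul_left_cancel₀ hg1'
  have q7' : (Nat.card (Rk M.base 1) : ℤ) * (Rk M.base 1).index = Nat.card (Inr L 𝔓) := by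
    exact_mod_cast q7
  have q10 : (Nat.card (Inr L' 𝔓) : ℤ) = e * Nat.card (Inr L 𝔓) := by exact_mod_cast hcardI
  rw [hcard1] at q3
  rw [q10] at q2
  rw [q4, q6] at q1
  rw [← q7'] at q2 q5
  linear_combination (e : ℤ) * q5 - (e : ℤ) * q1 + 2 * q3 + q2

end PQ
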