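import Pool.Agent.Helper94.PQ.StmtsT
import Pool.Agent.Helper81.AbMot.WC

/-!
# Row SPLIT: a quadratic extension in which all primes split is trivial
-/

set_option autoImplicit false

open NumberField

namespace PQ

open BKA

theorem split : ST_SPLIT := by
  intro F _ _ L hL z hz h
  have hNF : NumberField L := NumberField.of_module_finite F L
  have hGal : IsGalois L (AlgebraicClosure F) := inferInstance
  have hsq : ∀ g : AlgebraicClosure F ≃ₐ[L] AlgebraicClosure F, g z = z ∨ g z = -z := by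
    intro g
    have h1 : (g z) ^ 2 = z ^ 2 := by
      rw [← map_pow]
      exact g.commutes ⟨z ^ 2, hz⟩
    exact sq_eq_sq_iff_eq_or_eq_neg.1 h1
  let Y : Subgroup (AlgebraicClosure F ≃ₐ[L] AlgebraicClosure F) := MulAction.stabilizer _ z
  have hYm : ∀ g : AlgebraicClosure F ≃ₐ[L] AlgebraicClosure F, g ∈ Y ↔ g z = z := fun g => Iff.rfl
  have hYn : Y.Normal := by
    constructor
    intro n hn g
    rw [hYm] at hn ⊢
    have h1 : n (g⁻¹ z) = g⁻¹ z := by
      rcases hsq g⁻¹ with h2 | h2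
      · rw [h2, hn]
      · rw [h2, map_neg, hn]
    rw [AlgEquiv.mul_apply, AlgEquiv.mul_apply, h1, ← AlgEquiv.mul_apply, mul_inv_cancel]
    rfl
  have hYo : IsOpen (Y : Set (AlgebraicClosure F ≃ₐ[L] AlgebraicClosure F)) :=
    stabilizer_isOpen_of_isIntegral (K := L) (L := AlgebraicClosure F) z
  have htop : Y = ⊤ := by
    refine AbMot.weak_chebotarev ∅ (by simp) Y hYo ?_
    intro P hP hP0 _ σ hσ
    obtain ⟨𝔓, h𝔓, h1, h2⟩ := hσ
    have hN0 : Ideal.absNorm P ≠ 0 := mt Ideal.absNorm_eq_zero_iff.1 hP0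
    let v : Pl F :=
      { asIdeal := P.comap (algebraMap (𝓞 F) (𝓞 L))
        isPrime := Ideal.comap_isPrime _ P
        ne_bot := by
          intro hb
          have h3 : ((Ideal.absNorm P : ℕ) : 𝓞 F) ∈ P.comap (algebraMap (𝓞 F) (𝓞 L)) := by
            rw [Ideal.mem_comap, map_natCast]
            exact Ideal.absNorm_mem P
          rw [hb, Ideal.mem_bot] at h3
          exact hN0 (by exact_mod_cast h3) }
    have hv : Over v 𝔓 := by
      refine ⟨h𝔓, fun x y hxy => ?_⟩
      refine Iff.trans ?_ (h1 (algebraMap (𝓞 F) (𝓞 L) x) y hxy)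
      exact Iff.rfl
    rw [hYm]
    refine h v 𝔓 hv (σ.restrictScalars F) ?_ ?_
    · intro x hx
      exact σ.commutes ⟨x, hx⟩
    · intro x y hxy
      have h3 : (y - x ^ Ideal.absNorm P : Zb F) ∈ 𝔓 := h2 x y hxy
      have key : ∀ a b : Zb F, a - b ∈ 𝔓 → (b ∈ 𝔓 ↔ a ∈ 𝔓) := by
        intro a b hab
        constructor
        · intro hb
          have h5 : a - b + b ∈ 𝔓 := Ideal.add_mem 𝔓 hab hb
          rwa [sub_add_cancel] at h5
        · intro ha
          have h5 : a - (a - b) ∈ 𝔓 := Ideal.sub_mem 𝔓 ha hab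
          rwa [sub_sub_cancel] at h5
      constructor
      · intro hx
        exact (key _ _ h3).1 (Ideal.pow_mem_of_mem 𝔓 hx _ (Nat.pos_of_ne_zero hN0))
      · intro hy
        exact h𝔓.mem_of_pow_mem _ ((key _ _ h3).2 hy)
  obtain ⟨k, hk⟩ := (InfiniteGalois.mem_range_algebraMap_iff_fixed (k := L)
    (K := AlgebraicClosure F) z).2 (fun g => (hYm g).1 (by rw [htop]; exact Subgroup.mem_top g))
  rw [← hk]
  exact k.2

end PQ
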